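import Pool.Agent.H16.FK.TargetsA
import Pool.Agent.H61.FK.FST

/-!
COM: commutation of generic parts (board `hci_modules`, `MP_5607ba_lc`).
-/

set_option autoImplicit false

namespace Pool.Agent.H72.FK

open Set Pool.Agent.H75.HCI Pool.Agent.H16.FK Pool.Agent.H61.FK

theorem pf_COM : T_COM := by
  intro kx k L T hT l v w hv hw
  obtain ⟨hv0, a, i, m, ha, hal, hak, hm, hTa⟩ := hv
  obtain ⟨-, b, i', m', hb, hbl, hbk, hm', hTb⟩ := hw
  obtain ⟨N, hN⟩ := exists_bd (l ++ v ++ w)
  have hNl : ∀ p ∈ l, p.1 < N := fun p hp =>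
    hN p (List.mem_append_left _ (List.mem_append_left _ hp))
  have hNw : ∀ p ∈ w, p.1 < N := fun p hp => hN p (List.mem_append_right _ hp)
  have hpl : ∀ (i m : ℕ) (c : List (Fin k)), (prt (kx := kx) i m c).length = c.length :=
    fun i m c => by unfold prt; rw [List.length_map]
  have hpm : ∀ (i m : ℕ) (c : List (Fin k)) (p : Idx kx k), p ∈ prt i m c → p.1 = i := by
    intro i m c p hp
    unfold prt at hp
    obtain ⟨y, -, rfl⟩ := List.mem_map.1 hp
    rfl
  obtain ⟨i1, h1, h1'⟩ : ∃ i1, N ≤ i1 ∧ i < i1 :=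
    ⟨max N (i + 1), le_max_left _ _, lt_of_lt_of_le (Nat.lt_succ_self _) (le_max_right _ _)⟩
  have e1 : T (l ++ v ++ w) = T (l ++ prt i m a ++ prt i1 0 b) := by
    rw [hTb]
    refine hT.ext (l ++ v) (l ++ prt i m a) i' m' i1 0 b ?_ hTa hb hbk hm' ?_
    · rw [List.length_append, List.length_append, hpl, hal]
    · intro y hy
      rcases List.mem_append.1 hy with hy | hy
      · exact absurd (hNl _ hy) (not_lt.2 h1)
      · exact absurd (hpm _ _ _ _ hy) (ne_of_gt h1')
  have e2 : T (l ++ w ++ v) = T (l ++ prt i1 0 b ++ prt i m a) := by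
    refine swap_eq hT.ft _ _ _ _ _ _ rfl ?_ ?_ e1
    · rw [hpl, hal]
    · rw [hpl, hbl]
  have e3 : T (l ++ w) = T (l ++ prt i1 0 b) := by
    have h := hT.ft _ _ (List.range (l ++ w).length) ?_ e2
    · rw [sel_left, sel_range] at h
      · have hlen : (l ++ w).length = (l ++ prt (kx := kx) i1 0 b).length := by
          rw [List.length_append, List.length_append, hpl, hbl]
        rw [hlen, sel_left, sel_range] at h
        · exact h
        · intro j hj
          exact List.mem_range.1 hj
      · intro j hj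
        exact List.mem_range.1 hj
    · simp only [List.length_append, hpl, hal, hbl]
  have e4 : T (l ++ prt i1 0 b ++ prt i m a) = T (l ++ prt i1 0 b ++ prt (i1 + 1) 0 a) := by
    refine hT.t3 _ i m (i1 + 1) 0 a ha hak ?_ ?_
    · intro y hy
      rcases List.mem_append.1 hy with hy | hy
      · exact hm y hy
      · exact absurd (hpm _ _ _ _ hy) (ne_of_lt h1')
    · intro y hy
      rcases List.mem_append.1 hy with hy | hy
      · exact absurd (hNl _ hy) (by change ¬ (i1 + 1 < N); omega)
      · have := hpm _ _ _ _ hy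
        change i1 + 1 = i1 at this
        omega
  have e5 : T (l ++ w ++ prt (i1 + 1) 0 a) = T (l ++ prt i1 0 b ++ prt (i1 + 1) 0 a) := by
    refine hT.ext _ _ _ _ _ _ a ?_ e3 ha hak ?_ ?_
    · rw [List.length_append, List.length_append, hpl, hbl]
    · intro y hy
      rcases List.mem_append.1 hy with hy | hy
      · exact absurd (hNl _ hy) (by change ¬ (i1 + 1 < N); omega)
      · exact absurd (hNw _ hy) (by change ¬ (i1 + 1 < N); omega)
    · intro y hy
      rcases List.mem_append.1 hy with hy | hy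
      · exact absurd (hNl _ hy) (by change ¬ (i1 + 1 < N); omega)
      · have := hpm _ _ _ _ hy
        change i1 + 1 = i1 at this
        omega
  refine ⟨hv0, a, i1 + 1, 0, ha, hal, hak, ?_, ?_⟩
  · intro y hy
    rcases List.mem_append.1 hy with hy | hy
    · exact absurd (hNl _ hy) (by change ¬ (i1 + 1 < N); omega)
    · exact absurd (hNw _ hy) (by change ¬ (i1 + 1 < N); omega)
  · rw [e2, e4, e5]

end Pool.Agent.H72.FK
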